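import Pool.Agent.Helper44.LD4.A1
import Pool.Agent.Helper46.LD4.A4
import Pool.Agent.Helper68.LD4.A2
import Pool.Agent.Helper68.LD4.A3
import Pool.Agent.Helper41.LD.P
import Pool.Agent.Helper41.LD4.Defs

/-!
# Project LD4, block ST: one block of the construction
-/

set_option autoImplicit false

namespace Pool.Agent.Helper9.LD4

open Set MeasureTheory Filter Topology
open Pool.Agent.Helper41.LD (steer_step)
open Pool.Agent.Helper41.LD4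
open Pool.Agent.Helper44.LD4 (M_children)
open Pool.Agent.Helper46.LD4 (W_nonneg W_le W_mean)
open Pool.Agent.Helper68.LD4 (M_inc M_var)

open Classical in
theorem step4 {ι : Type} (P : Finset ι) (hP : P.Nonempty) {G : ι → ℕ → ℝ → ℝ} {β w v : ι → ℝ} {n L' : ι → ℕ} {K r L B : ℕ}
    {a ℓ Cb Cw Cv Nl lam : ℝ} (hK : 2 ≤ K) (hr1 : 1 ≤ r) (hB : 1 ≤ B) (hCb : ∀ p ∈ P, β p / (β p - 1) ≤ Cb) (hCb1 : 1 ≤ Cb)
    (hCw : ∀ p ∈ P, w p ≤ Cw) (hCw1 : 1 ≤ Cw) (hCv : ∀ p ∈ P, w p ≤ Cv * v p) (hCv1 : 1 ≤ Cv)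
    (hv0 : ∀ p ∈ P, (1 / 2) ^ K / Cv ≤ v p) (hv : ∑ p ∈ P, v p ≤ Nl) (hNl : 1 ≤ Nl)
    (hL' : ∀ p ∈ P, 3 * r ≤ L' p ∧ L' p ≤ L) (hr2 : (r : ℝ) ^ 2 ≤ L) (hCL : Cb * Cw ≤ L)
    (hlam1 : lam * (8192 * Nl * Cb ^ 2 * Cw * Cv * L) ≤ 1) (hlam2 : (1 / 2) ^ K ≤ lam)
    (hw : ∀ p ∈ P, Wd (G p) (β p) (w p) (n p) a ℓ)
    (hw' : ∀ p ∈ P, ∀ b < B, Wd (G p) (β p) (w p) (n p + L' p) (a + b * (ℓ / B)) (ℓ / B))
    (hgain : ∀ g : ι → ℝ, 1 / (2 * Nl) * (∑ p ∈ P, |g p| * v p) * B ≤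
      ∑ b ∈ Finset.range B, |∑ p ∈ P, g p * (M (G p) (a + b * (ℓ / B)) (ℓ / B) - M (G p) a ℓ)|)
    (hNB : ∀ p ∈ P, NB (G p) (n p) r a ℓ) (hPot : ∑ p ∈ P, Pot (G p) (n p) r lam a ℓ ≤ 16 ^ K) :
    2 * (1 / 2 : ℝ) ^ (3 * K) * B ≤ (((Finset.range B).filter fun b : ℕ =>
      ∑ p ∈ P, Pot (G p) (n p + L' p) r lam (a + b * (ℓ / B)) (ℓ / B) ≤ 16 ^ K).card : ℝ) := by
  obtain ⟨p₀, hp₀⟩ := hP
  have hK1 : (2 : ℝ) ≤ K := by exact_mod_cast hK
  have hB1 : (1 : ℝ) ≤ B := by exact_mod_cast hB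
  have hr1' : (1 : ℝ) ≤ r := by exact_mod_cast hr1
  have hCb0 : 0 < Cb := by linarith
  have hCw0 : 0 < Cw := by linarith
  have hCv0 : 0 < Cv := by linarith
  have hNl0 : 0 < Nl := by linarith
  have hCbw : 1 ≤ Cb * Cw := by nlinarith
  have hL1 : (1 : ℝ) ≤ L := hCbw.trans hCL
  have hL0 : (0 : ℝ) < L := by linarith
  have hℓ : 0 < ℓ := (hw p₀ hp₀).pos
  have hℓB : 0 < ℓ / B := by positivity
  have h3r : 3 * (r : ℝ) ≤ L := by
    have := (hL' p₀ hp₀).1.trans (hL' p₀ hp₀).2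
    exact_mod_cast this
  have hCb2 : 1 ≤ Cb ^ 2 := by nlinarith
  have hhp : 0 < (1 / 2 : ℝ) ^ K := by positivity
  have hlam0 : 0 < lam := hhp.trans_le hlam2
  have hCC : 1 ≤ Cb ^ 2 * Cw := by nlinarith
  have hCCv : 1 ≤ Cb ^ 2 * Cw * Cv := by nlinarith
  -- the product
  obtain ⟨Q, hQ⟩ : ∃ Q : ℝ, Q = Cb ^ 2 * Cw * Cv * L := ⟨_, rfl⟩
  have hQ0 : 0 < Q := by rw [hQ]; positivity
  have hlamQ : lam * (8192 * Nl * Q) ≤ 1 := by
    rw [hQ]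
    calc lam * (8192 * Nl * (Cb ^ 2 * Cw * Cv * L)) = lam * (8192 * Nl * Cb ^ 2 * Cw * Cv * L) := by ring
      _ ≤ 1 := hlam1
  have hLQ : (L : ℝ) ≤ Q := by
    rw [hQ]
    calc (L : ℝ) = 1 * L := by ring
      _ ≤ Cb ^ 2 * Cw * Cv * L := by gcongr
  have hCvL : Cv * L ≤ Q := by
    rw [hQ]
    calc Cv * L = 1 * (Cv * L) := by ring
      _ ≤ Cb ^ 2 * Cw * (Cv * L) := by gcongr
      _ = _ := by ring
  have hlamL : lam * L ≤ 1 / 8192 := by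
    have h1 : lam * (8192 * 1 * L) ≤ lam * (8192 * Nl * Q) := by gcongr
    linarith
  have hlamr : lam * r ≤ 1 / 2 := by
    have h1 : lam * r ≤ lam * L := by
      have : (r : ℝ) ≤ L := by linarith
      gcongr
    linarith
  have hhQ : (1 / 2 : ℝ) ^ K * (8192 * Nl * Q) ≤ 1 := by
    calc (1 / 2 : ℝ) ^ K * (8192 * Nl * Q) ≤ lam * (8192 * Nl * Q) := by gcongr
      _ ≤ 1 := hlamQ
  have hhCvL : (1 / 2 : ℝ) ^ K * (8192 * Nl * (Cv * L)) ≤ 1 := by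
    calc (1 / 2 : ℝ) ^ K * (8192 * Nl * (Cv * L)) ≤ (1 / 2) ^ K * (8192 * Nl * Q) := by gcongr
      _ ≤ 1 := hhQ
  have h3K : (1 / 2 : ℝ) ^ (3 * K) = (1 / 2) ^ K * (1 / 2) ^ K * (1 / 2) ^ K := by
    rw [← pow_add, ← pow_add]
    congr 1
    ring
  have hhle : (1 / 2 : ℝ) ^ K ≤ 1 := pow_le_one₀ (by norm_num) (by norm_num)
  have key := steer_step P hB (fun p => M (G p) a ℓ) (fun p => W (G p) (n p) r a ℓ) v
    (fun p b => M (G p) (a + b * (ℓ / B)) (ℓ / B) - M (G p) a ℓ)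
    (fun p b => W (G p) (n p + L' p) r (a + b * (ℓ / B)) (ℓ / B)) (lam := lam) (D := 5 * (L : ℝ)) (E₁ := 88 * Q)
    (E₂ := (r : ℝ) ^ 2 * Cv) (E₃ := (r : ℝ) ^ 2) (γ := 1 / (2 * Nl)) (τ := 16 ^ K) (μ₀ := (1 / 2) ^ K / Cv) (K := Nl)
    (ρ := 2 * (1 / 2) ^ (3 * K))
    hlam0 (by positivity) (by linarith) (by positivity) (by positivity) (by positivity) (by positivity)
    (fun p hp => by
      rw [Finset.sum_sub_distrib, M_children (hw p hp) hB (hw' p hp), Finset.sum_const, Finset.card_range, nsmul_eq_mul]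
      ring)
    (fun p hp b hb => by
      refine (M_inc (hw p hp) (hNB p hp) hB hb (hw' p hp b hb)).trans ?_
      have h1 : ((L' p : ℕ) : ℝ) ≤ L := by exact_mod_cast (hL' p hp).2
      have h2 : 0 ≤ β p / (β p - 1) := div_nonneg (by linarith [(hw p hp).hβ]) (by linarith [(hw p hp).hβ])
      have h3 : w p * (β p / (β p - 1)) ≤ Cw * Cb := mul_le_mul (hCw p hp) (hCb p hp) h2 (by linarith)
      nlinarith)
    (fun p hp => by
      refine (M_var (hw p hp) (hNB p hp) hB (hw' p hp) (by have := (hL' p hp).1; omega)).trans ?_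
      have h1 : ((L' p : ℕ) : ℝ) ≤ L := by exact_mod_cast (hL' p hp).2
      have h2 : 0 ≤ β p / (β p - 1) := div_nonneg (by linarith [(hw p hp).hβ]) (by linarith [(hw p hp).hβ])
      have h0 : 0 ≤ w p := (hw p hp).w0
      have h3 : (β p / (β p - 1)) ^ 2 ≤ Cb ^ 2 := pow_le_pow_left₀ h2 (hCb p hp) 2
      have h4 : 1 + w p ≤ 2 * Cw := by linarith [hCw p hp]
      have hv0' : 0 ≤ v p := le_trans (by positivity) (hv0 p hp)
      have h5 : 44 * (β p / (β p - 1)) ^ 2 * (L' p : ℝ) * w p * (1 + w p) ≤ 88 * Q * v p := by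
        calc 44 * (β p / (β p - 1)) ^ 2 * (L' p : ℝ) * w p * (1 + w p)
            ≤ 44 * Cb ^ 2 * L * (Cv * v p) * (2 * Cw) := by
              have := hCv p hp
              gcongr
          _ = 88 * Q * v p := by rw [hQ]; ring
      gcongr)
    (fun p _ => W_nonneg (G p) (n p) r a hℓ) (fun p hp => W_le (hw p hp) (n p) r)
    (fun p _ b _ => W_nonneg (G p) (n p + L' p) r _ hℓB) (fun p hp b hb => W_le (hw' p hp b hb) (n p + L' p) r)
    (fun p hp => by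
      refine (W_mean (hw p hp) hB (by have := (hL' p hp).1; omega)).trans ?_
      have := hCv p hp
      have h1 : (r : ℝ) ^ 2 * w p ≤ (r : ℝ) ^ 2 * Cv * v p := by
        calc (r : ℝ) ^ 2 * w p ≤ (r : ℝ) ^ 2 * (Cv * v p) := by gcongr
          _ = _ := by ring
      gcongr)
    hgain hv0 hv
    (by
      have h1 : (1 / 2 : ℝ) ^ K / Cv * 16 ^ K = 8 ^ K / Cv := by
        rw [div_mul_eq_mul_div, ← mul_pow]
        norm_num
      rw [h1, le_div_iff₀ hCv0]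
      have h2 : 16 * Nl * Cv * (1 / 2 : ℝ) ^ K ≤ 1 := by
        calc 16 * Nl * Cv * (1 / 2 : ℝ) ^ K = (1 / 2) ^ K * (16 * Nl * (Cv * 1)) := by ring
          _ ≤ (1 / 2) ^ K * (8192 * Nl * (Cv * L)) := by gcongr; norm_num
          _ ≤ 1 := hhCvL
      have h3 : (1 / 2 : ℝ) ^ K * 2 ^ K = 1 := by rw [← mul_pow]; norm_num
      have h4 : (2 : ℝ) ^ K ≤ 8 ^ K := by gcongr; norm_num
      have h5 : 16 * Nl * Cv = 16 * Nl * Cv * (1 / 2 : ℝ) ^ K * 2 ^ K := by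
        rw [mul_assoc (16 * Nl * Cv), h3, mul_one]
      rw [h5]
      calc 16 * Nl * Cv * (1 / 2 : ℝ) ^ K * 2 ^ K ≤ 1 * 2 ^ K := by gcongr
        _ ≤ 8 ^ K := by linarith)
    hNl0
    (by
      have h2 : 0 ≤ lam * r := by positivity
      nlinarith)
    (by
      have h0 : (r : ℝ) ^ 2 * Cv ≤ Q := by
        calc (r : ℝ) ^ 2 * Cv ≤ L * Cv := by gcongr
          _ = Cv * L := by ring
          _ ≤ Q := hCvL
      have h1 : 88 * Q + 8 * ((r : ℝ) ^ 2 * Cv) ≤ 96 * Q := by linarith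
      have h2 : 24 * lam * (96 * Q) ≤ 1 / (2 * Nl) := by
        rw [le_div_iff₀ (by positivity)]
        calc 24 * lam * (96 * Q) * (2 * Nl) = 4608 / 8192 * (lam * (8192 * Nl * Q)) := by ring
          _ ≤ 4608 / 8192 * 1 := by gcongr
          _ ≤ 1 := by norm_num
      exact le_trans (by gcongr) h2)
    hPot
    (by
      rw [h3K]
      have h1 : (1 / 2 : ℝ) ^ K ≤ 1 / 4 := by
        calc (1 / 2 : ℝ) ^ K ≤ (1 / 2) ^ 2 := pow_le_pow_of_le_one (by norm_num) (by norm_num) hK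
          _ = 1 / 4 := by norm_num
      have h2 : (1 / 2 : ℝ) ^ K * (1 / 2) ^ K ≤ 1 / 4 * (1 / 4) := by gcongr
      have h3 : (1 / 2 : ℝ) ^ K * (1 / 2) ^ K * (1 / 2) ^ K ≤ 1 / 4 * (1 / 4) * (1 / 4) := by gcongr
      linarith)
    (by
      rw [h3K]
      have h2 : (1 / 2 : ℝ) ^ K * (1 / 2) ^ K ≤ lam * lam := by gcongr
      have hQv : 1 ≤ Q / Cv := by
        rw [le_div_iff₀ hCv0, one_mul]
        calc Cv = Cv * 1 := by ring
          _ ≤ Cv * L := by gcongr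
          _ ≤ Q := hCvL
      have h4 : 0 ≤ lam * lam * (1 / 2 : ℝ) ^ K := by positivity
      calc 2 * ((1 / 2 : ℝ) ^ K * (1 / 2) ^ K * (1 / 2) ^ K) ≤ 2 * (lam * lam * (1 / 2) ^ K) := by gcongr
        _ ≤ 11 * (lam * lam * (1 / 2) ^ K) * 1 := by linarith
        _ ≤ 11 * (lam * lam * (1 / 2) ^ K) * (Q / Cv) := by gcongr
        _ = lam ^ 2 * (88 * Q) * ((1 / 2) ^ K / Cv) / 8 := by ring)
    (by
      rw [h3K, le_div_iff₀ (by positivity)]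
      have h4 : 1 / (2 * Nl) * ((1 / 2 : ℝ) ^ K / Cv) = (1 / 2) ^ K * (1 / (2 * Nl * Cv)) := by
        field_simp
      rw [h4]
      have h5 : 2 * ((1 / 2 : ℝ) ^ K * (1 / 2) ^ K * (1 / 2) ^ K) * (8 * (5 * (L : ℝ))) =
          (1 / 2) ^ K * ((1 / 2 : ℝ) ^ K * (1 / 2) ^ K * (80 * L)) := by ring
      rw [h5]
      apply mul_le_mul_of_nonneg_left _ hhp.le
      rw [le_div_iff₀ (by positivity)]
      calc (1 / 2 : ℝ) ^ K * (1 / 2) ^ K * (80 * L) * (2 * Nl * Cv) ≤ (1 / 2) ^ K * 1 * (80 * L) * (2 * Nl * Cv) := by gcongr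
        _ = (1 / 2) ^ K * (160 * Nl * (Cv * L)) := by ring
        _ ≤ (1 / 2) ^ K * (8192 * Nl * (Cv * L)) := by gcongr; norm_num
        _ ≤ 1 := hhCvL)
  refine key.trans (Nat.cast_le.2 (Finset.card_le_card ?_))
  intro b hb
  rw [Finset.mem_filter] at hb ⊢
  refine ⟨hb.1, ?_⟩
  unfold Pot
  refine le_trans (le_of_eq ?_) hb.2
  refine Finset.sum_congr rfl fun p _ => ?_
  rw [add_sub_cancel]

end Pool.Agent.Helper9.LD4
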